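import Pool.Agent.Helper43.FV.Spec

set_option autoImplicit false

/-! Module CLS: an invariant class of positive degree, or genus one. -/

namespace Pool.Agent.Helper43.FV

variable {F : Type} [Field F] [Algebra ℂ F]

theorem CLS_dg_add (D E : Dv F) : dg (D + E) = dg D + dg E := by
  unfold dg
  exact Finsupp.sum_add_index' (fun _ => rfl) (fun _ _ _ => rfl)

theorem CLS_dg_sub (D E : Dv F) : dg (D - E) = dg D - dg E := by
  have h := CLS_dg_add (D - E) E
  rw [sub_add_cancel] at h
  omega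

theorem CLS_dg_single (w : Pl F) (n : ℤ) : dg (Finsupp.single w n) = n := by
  unfold dg
  exact Finsupp.sum_single_index rfl

theorem CLS_dg_nonneg (D : Dv F) (h : ∀ w, 0 ≤ D w) : 0 ≤ dg D := by
  unfold dg Finsupp.sum
  exact Finset.sum_nonneg fun w _ => h w

theorem CLS_dg_zero (D : Dv F) (h : ∀ w, 0 ≤ D w) (h0 : dg D = 0) : D = 0 := by
  unfold dg Finsupp.sum at h0
  rw [Finset.sum_eq_zero_iff_of_nonneg fun w _ => h w] at h0
  ext w
  by_cases hw : w ∈ D.support
  · exact h0 w hw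
  · exact Finsupp.notMem_support_iff.1 hw

/-- a nonzero element of the Riemann-Roch space -/
theorem CLS_exists (D : Dv F) (h : 0 < ll D) : ∃ f ∈ LL D, f ≠ 0 := by
  unfold ll at h
  have h1 : 0 < Module.finrank ℂ (LL D) := by exact_mod_cast h
  have h2 : Nontrivial (LL D) := Module.nontrivial_of_finrank_pos h1
  obtain ⟨x, hx⟩ := exists_ne (0 : LL D)
  exact ⟨x, x.2, fun h => hx (Subtype.ext h)⟩

theorem CLS_neg (hDEG : ST_DEG) (hF : FF F) (D : Dv F) (h : dg D < 0) : ll D = 0 := by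
  by_contra hne
  have h0 : 0 ≤ ll D := by unfold ll; positivity
  obtain ⟨f, hf, hf0⟩ := CLS_exists D (by omega)
  obtain ⟨E, hE, hE0, -⟩ := hDEG F hF f hf0
  have h1 : 0 ≤ dg (E + D) := CLS_dg_nonneg _ (fun w => by
    rw [Finsupp.add_apply, hE w]
    exact hf hf0 w)
  rw [CLS_dg_add, hE0] at h1
  omega

/-- divisors of degree zero with sections -/
theorem CLS_deg0 (hDEG : ST_DEG) (hF : FF F) (D : Dv F) (h : dg D = 0) (h1 : 0 < ll D) :
    ∃ f : F, f ≠ 0 ∧ ∀ w : Pl F, D w + w.1 f = 0 := by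
  obtain ⟨f, hf, hf0⟩ := CLS_exists D h1
  obtain ⟨E, hE, hE0, -⟩ := hDEG F hF f hf0
  have h2 : E + D = 0 := CLS_dg_zero _ (fun w => by
    rw [Finsupp.add_apply, hE w]
    exact hf hf0 w) (by rw [CLS_dg_add, hE0, h]; rfl)
  refine ⟨f, hf0, fun w => ?_⟩
  have h3 := DFunLike.congr_fun h2 w
  rw [Finsupp.add_apply, hE w] at h3
  rw [add_comm]
  exact h3

theorem CLS_ll_zero (hDEG : ST_DEG) (hF : FF F) : ll (0 : Dv F) = 1 := by
  have h : LL (0 : Dv F) = Submodule.span ℂ {(1 : F)} := by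
    ext f
    rw [Submodule.mem_span_singleton]
    constructor
    · intro hf
      by_cases hc : ∃ c : ℂ, f = algebraMap ℂ F c
      · obtain ⟨c, rfl⟩ := hc
        exact ⟨c, by rw [Algebra.smul_def, mul_one]⟩
      · exfalso
        push Not at hc
        have hf0 : f ≠ 0 := by
          intro h0
          exact hc 0 (by rw [h0, map_zero])
        obtain ⟨E, hE, -, h3⟩ := hDEG F hF f hf0
        obtain ⟨h4, h5⟩ := h3 hc
        have h6 : (E.sum fun _ n => max 0 (-n)) = 0 := by
          unfold Finsupp.sum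
          refine Finset.sum_eq_zero fun w _ => ?_
          have h7 := hf hf0 w
          rw [Finsupp.zero_apply, add_zero, ← hE w] at h7
          exact max_eq_left (by omega)
        rw [h6] at h5
        omega
    · rintro ⟨c, rfl⟩ _ w
      rw [Algebra.smul_def, mul_one, w.2.const]
      simp
  unfold ll
  rw [h, finrank_span_singleton one_ne_zero]
  rfl

theorem CLS_place (hDEG : ST_DEG) (hF : FF F) : Nonempty (Pl F) := by
  by_contra hne
  rw [not_nonempty_iff] at hne
  obtain ⟨t, ht⟩ := hF.nonconst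
  have ht0 : t ≠ 0 := by
    intro h0
    exact ht 0 (by rw [h0, map_zero])
  obtain ⟨E, -, -, h3⟩ := hDEG F hF t ht0
  obtain ⟨h4, h5⟩ := h3 ht
  have h6 : E = 0 := by
    ext w
    exact (hne.false w).elim
  rw [h6, Finsupp.sum_zero_index] at h5
  omega

theorem CLS_act_left (a : F ≃ₐ[ℂ] F) (w : Pl F) : actPl a (actPl a.symm w) = w := by
  apply Subtype.ext
  funext f
  show w.1 (a.symm.symm (a.symm f)) = w.1 f
  rw [AlgEquiv.symm_symm, AlgEquiv.apply_symm_apply]

theorem CLS_act_inj (a : F ≃ₐ[ℂ] F) : Function.Injective (actPl a) := by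
  intro w w' h
  apply Subtype.ext
  funext f
  have h1 := congrArg (fun x : Pl F => x.1 (a f)) h
  have h2 : w.1 (a.symm (a f)) = w'.1 (a.symm (a f)) := h1
  rwa [AlgEquiv.symm_apply_apply] at h2

theorem CLS_map_apply (a : F ≃ₐ[ℂ] F) (D : Dv F) (w : Pl F) :
    mapDv a D w = D (actPl a.symm w) := by
  conv_lhs => rw [← CLS_act_left a w]
  exact Finsupp.mapDomain_apply (CLS_act_inj a) D _

theorem CLS_map_dg (a : F ≃ₐ[ℂ] F) (D : Dv F) : dg (mapDv a D) = dg D := by
  unfold dg mapDv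
  exact Finsupp.sum_mapDomain_index (fun _ => rfl) (fun _ _ _ => rfl)

theorem CLS_map_mem (a : F ≃ₐ[ℂ] F) (D : Dv F) (f : F) : f ∈ LL D ↔ a f ∈ LL (mapDv a D) := by
  constructor
  · intro h h0 w
    have hf : f ≠ 0 := by
      rintro rfl
      exact h0 (map_zero a)
    rw [CLS_map_apply]
    exact h hf (actPl a.symm w)
  · intro h h0 w
    have h1 := h ((map_ne_zero a).2 h0) (actPl a w)
    rw [CLS_map_apply] at h1
    have h2 : actPl a.symm (actPl a w) = w := CLS_act_left a.symm w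
    rw [h2] at h1
    have h3 : (actPl a w).1 (a f) = w.1 f := by
      show w.1 (a.symm (a f)) = w.1 f
      rw [AlgEquiv.symm_apply_apply]
    rwa [h3] at h1

theorem CLS_map_ll (a : F ≃ₐ[ℂ] F) (D : Dv F) : ll (mapDv a D) = ll D := by
  have h : LL (mapDv a D) = (LL D).map a.toLinearEquiv.toLinearMap := by
    ext f
    constructor
    · intro hf
      refine ⟨a.symm f, ?_, ?_⟩
      · rw [SetLike.mem_coe, CLS_map_mem a, AlgEquiv.apply_symm_apply]
        exact hf
      · exact a.apply_symm_apply f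
    · rintro ⟨g, hg, rfl⟩
      exact (CLS_map_mem a D g).1 hg
  unfold ll
  rw [h, LinearEquiv.finrank_map_eq]

theorem st_CLS (hRR : ST_RR) (hDEG : ST_DEG) : ST_CLS := by
  intro F _ _ hF
  obtain ⟨g, W, hW⟩ := hRR F hF
  have h1 := hW 0
  have h2 := hW W
  have hz : dg (0 : Dv F) = 0 := by
    unfold dg
    exact Finsupp.sum_zero_index
  rw [CLS_ll_zero hDEG hF, hz, sub_zero] at h1
  rw [sub_self, CLS_ll_zero hDEG hF] at h2
  have h3 : 0 ≤ ll W := by unfold ll; positivity
  rcases lt_trichotomy g 1 with hg | hg | hg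
  · -- genus zero
    left
    obtain ⟨o⟩ := CLS_place hDEG hF
    refine ⟨Finsupp.single o 1, by rw [CLS_dg_single]; omega, fun a => ?_⟩
    have h4 : dg (Finsupp.single o 1 - mapDv a (Finsupp.single o 1) : Dv F) = 0 := by
      rw [CLS_dg_sub, CLS_map_dg, sub_self]
    have h5 := hW (Finsupp.single o 1 - mapDv a (Finsupp.single o 1))
    have h6 : ll (W - (Finsupp.single o 1 - mapDv a (Finsupp.single o 1))) = 0 :=
      CLS_neg hDEG hF _ (by rw [CLS_dg_sub, h4]; omega)
    obtain ⟨f, hf, hf'⟩ := CLS_deg0 hDEG hF _ h4 (by omega)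
    refine ⟨f, hf, fun w => ?_⟩
    have h7 := hf' w
    rw [Finsupp.sub_apply] at h7
    omega
  · -- genus one
    right
    intro D hD
    have h4 := hW D
    have h5 : ll (W - D) = 0 := CLS_neg hDEG hF _ (by rw [CLS_dg_sub]; omega)
    omega
  · -- genus at least two
    left
    refine ⟨W, by omega, fun a => ?_⟩
    have h4 : dg (W - mapDv a W) = 0 := by rw [CLS_dg_sub, CLS_map_dg, sub_self]
    have h5 := hW (mapDv a W)
    rw [CLS_map_ll, CLS_map_dg] at h5
    obtain ⟨f, hf, hf'⟩ := CLS_deg0 hDEG hF _ h4 (by omega)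
    refine ⟨f, hf, fun w => ?_⟩
    have h7 := hf' w
    rw [Finsupp.sub_apply] at h7
    omega

end Pool.Agent.Helper43.FV
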